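import Mathlib

set_option autoImplicit false

open Filter Topology

namespace Pool.Agent.Helper80.E49600


/-! ### definitions of the problem -/

/-- `ρ` is a proximate order with limit `ρ₀`. -/
def IsProximateOrder (ρ : ℝ → ℝ) (ρ₀ : ℝ) : Prop :=
  (∃ r₀ : ℝ, ∀ r > r₀, DifferentiableAt ℝ ρ r) ∧ Tendsto ρ atTop (𝓝 ρ₀) ∧
    Tendsto (fun r => r * deriv ρ r * Real.log r) atTop (𝓝 0)

/-- the maximum modulus `M_F(r) = max_{|z| = r} |F z|` -/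
noncomputable def maxMod (F : ℂ → ℂ) (r : ℝ) : ℝ :=
  sSup ((fun z => ‖F z‖) '' Metric.sphere (0 : ℂ) r)

/-- the order `limsup log log M_F(r) / log r` of `F` -/
noncomputable def order (F : ℂ → ℂ) : EReal :=
  limsup (fun r : ℝ => ((Real.log (Real.log (maxMod F r)) / Real.log r : ℝ) : EReal)) atTop

/-- the type `limsup r^{-ρ(r)} log M_F(r)` with respect to `ρ(r)` -/
noncomputable def typ (F : ℂ → ℂ) (ρ : ℝ → ℝ) : EReal :=
  limsup (fun r : ℝ => ((r ^ (-(ρ r)) * Real.log (maxMod F r) : ℝ) : EReal)) atTop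

/-- the indicator `limsup r^{-ρ(r)} log |F(r e^{iθ})|` (with `log 0 = -∞`) -/
noncomputable def indicator (F : ℂ → ℂ) (ρ : ℝ → ℝ) (θ : ℝ) : EReal :=
  limsup (fun r : ℝ => ((r ^ (-(ρ r)) : ℝ) : EReal) *
    ENNReal.log (ENNReal.ofReal ‖F (r * Complex.exp (θ * Complex.I))‖)) atTop

/-- `C₀`-sets -/
def IsC0Set (E : Set ℂ) : Prop :=
  ∃ (c : ℕ → ℂ) (δ : ℕ → ℝ), (∀ j, 0 ≤ δ j) ∧ (E ⊆ ⋃ j, Metric.ball (c j) (δ j)) ∧
    Tendsto (fun R : ℝ => (∑' j, if ‖c j‖ < R then ENNReal.ofReal (δ j) else 0) /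
      ENNReal.ofReal R) atTop (𝓝 0)

/-- completely regular growth with respect to `ρ(r)` -/
def IsCRG (F : ℂ → ℂ) (ρ : ℝ → ℝ) : Prop :=
  typ F ρ < ⊤ ∧ ∃ h : ℝ → ℝ, (∀ θ : ℝ, indicator F ρ θ = (h θ : EReal)) ∧
    ∃ E : Set ℂ, IsC0Set E ∧ ∀ ε > 0, ∃ R : ℝ, ∀ r > R, ∀ θ : ℝ,
      (r : ℂ) * Complex.exp (θ * Complex.I) ∉ E →
        F (r * Complex.exp (θ * Complex.I)) ≠ 0 ∧
        |r ^ (-(ρ r)) * Real.log ‖F (r * Complex.exp (θ * Complex.I))‖ - h θ| < ε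

end Pool.Agent.Helper80.E49600
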