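import Pool.Agent.Helper80.E49600.Defs

set_option autoImplicit false

open Filter Topology

/-!
# Completely regular growth of solutions of infinite-order differential equations (Q1: negative)

`f z = exp (z ^ 2)` is of completely regular growth with respect to `ρ(r) = 2`. We take
`φ t = ∑ (-1)^n t^n / (l 0 * l 1 * ... * l (n-1))` with extremely fast growing `l n`. Then `φ` has
(very sparse) zeros near `l n`; at the scale `l n` every entire solution `F` of finite type of
`φ(D) F = f` is as large as `exp (c r ^ 2)` in one of the two sectors where `f` is bounded (multiply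
by `exp (- t z)` with `t` a zero of a truncation of `φ` and integrate along a vertical segment),
whereas at the scales `(l n) ^ 2` the equation is, up to a negligible error, a differential equation
of order `n + 1` with small relative growth rate, so `F` is at most `exp (ε r ^ 2)` in both sectors.
-/


namespace Pool.Agent.Helper80.E49600

/-! ### the scales -/

/-- the growth conditions on the scales -/
structure Lam (l : ℕ → ℝ) : Prop where
  fac : ∀ k, ((k + 2).factorial : ℝ) ≤ l k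
  exp : ∀ k, Real.exp ((l k) ^ 5) ≤ l (k + 1)

/-- a sequence of scales -/
noncomputable def lseq : ℕ → ℝ
  | 0 => 2
  | (k + 1) => max (Real.exp ((lseq k) ^ 5)) ((k + 3).factorial : ℝ)

lemma lseq_lam : Lam lseq := by
  constructor
  · intro k
    cases k with
    | zero => simp [lseq, Nat.factorial]
    | succ k => simp only [lseq]; exact le_max_right _ _
  · intro k
    simp only [lseq]
    exact le_max_left _ _

/-- partial products -/
noncomputable def P (l : ℕ → ℝ) (n : ℕ) : ℝ := ∏ i ∈ Finset.range n, l i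

section seq
variable {l : ℕ → ℝ} (hl : Lam l)
include hl

lemma two_le (k : ℕ) : 2 ≤ l k := by
  refine le_trans ?_ (hl.fac k)
  have : 2 ≤ (k + 2).factorial := by
    calc 2 = (2).factorial := rfl
      _ ≤ (k + 2).factorial := Nat.factorial_le (by omega)
  exact_mod_cast this

lemma l_pos (k : ℕ) : 0 < l k := by linarith [two_le hl k]

lemma two_mul_le (k : ℕ) : 2 * ((k : ℝ) + 1) ≤ l k := by
  refine le_trans ?_ (hl.fac k)
  have : 2 * (k + 1) ≤ (k + 2).factorial := by
    rw [Nat.factorial_succ, Nat.factorial_succ]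
    have h := Nat.factorial_pos k
    have h1 : k + 1 ≤ (k + 1) * k.factorial := Nat.le_mul_of_pos_right _ h
    exact Nat.mul_le_mul (by omega) h1
  exact_mod_cast this

lemma P_pos (n : ℕ) : 0 < P l n := Finset.prod_pos fun i _ => l_pos hl i

omit hl in
lemma P_succ (n : ℕ) : P l (n + 1) = P l n * l n := Finset.prod_range_succ _ _

lemma four_mul_le (k : ℕ) : 4 * l k ≤ l (k + 1) := by
  refine le_trans ?_ (hl.exp k)
  have h1 := Real.add_one_le_exp ((l k) ^ 5)
  have h2 := two_le hl k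
  have h3 : 16 * l k ≤ (l k) ^ 5 := by
    have : (2:ℝ) ^ 4 ≤ (l k) ^ 4 := by gcongr
    have h4 : (l k) ^ 5 = (l k) ^ 4 * l k := by ring
    rw [h4]
    nlinarith
  linarith

lemma l_mono : Monotone l := monotone_nat_of_le_succ fun k => by
  have := four_mul_le hl k
  have := l_pos hl k
  linarith

/-- `n! / P n ≤ 2^{-n}` -/
lemma q_le (n : ℕ) : (n.factorial : ℝ) / P l n ≤ (1 / 2) ^ n := by
  induction n with
  | zero => simp [P]
  | succ n ih =>
    rw [P_succ, Nat.factorial_succ, pow_succ]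
    push_cast
    have h1 := P_pos hl n
    have h2 := l_pos hl n
    have h3 := two_mul_le hl n
    have h4 : ((n : ℝ) + 1) / l n ≤ 1 / 2 := by
      rw [div_le_div_iff₀ h2 (by norm_num)]
      linarith
    calc ((n : ℝ) + 1) * n.factorial / (P l n * l n)
        = (n.factorial : ℝ) / P l n * (((n : ℝ) + 1) / l n) := by
          field_simp
      _ ≤ (1 / 2) ^ n * (1 / 2) := by
          apply mul_le_mul ih h4 (by positivity) (by positivity)

/-- tail version -/
lemma q_tail (k n : ℕ) : ((n + (k + 2)).factorial : ℝ) / P l (n + (k + 2)) ≤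
    (1 / l (k + 1)) * (1 / 2) ^ n := by
  induction n with
  | zero =>
    rw [zero_add, P_succ, Nat.factorial_succ, pow_zero, mul_one]
    push_cast
    have h0 := q_le hl (k + 1)
    have h1 := P_pos hl (k + 1)
    have h2 := l_pos hl (k + 1)
    have h3 : ((k : ℝ) + 1 + 1) * (1 / 2) ^ (k + 1) ≤ 1 := by
      have : (k + 2) ≤ 2 ^ (k + 1) := Nat.lt_two_pow_self
      have h4 : ((k : ℝ) + 2) ≤ 2 ^ (k + 1) := by exact_mod_cast this
      rw [one_div, inv_pow, ← div_eq_mul_inv, div_le_one (by positivity)]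
      linarith
    calc ((k : ℝ) + 1 + 1) * (k + 1).factorial / (P l (k + 1) * l (k + 1))
        = (((k : ℝ) + 1 + 1) * (((k + 1).factorial : ℝ) / P l (k + 1))) / l (k + 1) := by
          field_simp
      _ ≤ (((k : ℝ) + 1 + 1) * (1 / 2) ^ (k + 1)) / l (k + 1) := by gcongr
      _ ≤ 1 / l (k + 1) := by gcongr
  | succ n ih =>
    have e : n + 1 + (k + 2) = (n + (k + 2)) + 1 := by ring
    rw [e, P_succ, Nat.factorial_succ, pow_succ]
    have h1 := P_pos hl (n + (k + 2))
    have h2 := l_pos hl (n + (k + 2))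
    have h3 := two_mul_le hl (n + (k + 2))
    push_cast at h3 ⊢
    have h4 : ((n : ℝ) + (k + 2) + 1) / l (n + (k + 2)) ≤ 1 / 2 := by
      rw [div_le_div_iff₀ h2 (by norm_num)]
      linarith
    calc ((n : ℝ) + (k + 2) + 1) * (n + (k + 2)).factorial / (P l (n + (k + 2)) * l (n + (k + 2)))
        = ((n + (k + 2)).factorial : ℝ) / P l (n + (k + 2)) *
            (((n : ℝ) + (k + 2) + 1) / l (n + (k + 2))) := by
          field_simp
      _ ≤ (1 / l (k + 1)) * (1 / 2) ^ n * (1 / 2) := by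
          apply mul_le_mul ih h4 (by positivity) (by have := l_pos hl (k+1); positivity)
      _ = _ := by ring

lemma fac_le_P (n : ℕ) : (n.factorial : ℝ) ≤ P l n := by
  have h := q_le hl n
  have h1 := P_pos hl n
  rw [div_le_iff₀ h1] at h
  refine h.trans ?_
  have : (1 / 2 : ℝ) ^ n ≤ 1 := pow_le_one₀ (by norm_num) (by norm_num)
  nlinarith

lemma one_le_P (n : ℕ) : 1 ≤ P l n := by
  refine le_trans ?_ (fac_le_P hl n)
  exact_mod_cast Nat.factorial_pos n

lemma l_tendsto : Tendsto l atTop atTop := by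
  apply tendsto_atTop_mono (f := fun k : ℕ => (k : ℝ))
  · intro k
    have := two_mul_le hl k
    linarith
  · exact tendsto_natCast_atTop_atTop

end seq

/-- coefficients -/
noncomputable def a (l : ℕ → ℝ) (n : ℕ) : ℂ := (-1) ^ n / (P l n : ℂ)

lemma norm_a {l : ℕ → ℝ} (hl : Lam l) (n : ℕ) : ‖a l n‖ = 1 / P l n := by
  unfold a
  rw [norm_div, norm_pow, norm_neg, norm_one, one_pow, Complex.norm_real, Real.norm_eq_abs,
    abs_of_pos (P_pos hl n)]

/-- Cauchy estimate -/
lemma cauchy {F : ℂ → ℂ} (hF : Differentiable ℂ F) {A : ℝ} (hA : 0 ≤ A)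
    (hFb : ∀ z, ‖F z‖ ≤ Real.exp (A * ‖z‖ ^ 2 + A)) (n : ℕ) (z : ℂ) :
    ‖iteratedDeriv n F z‖ ≤ n.factorial * Real.exp (A * (‖z‖ + 1) ^ 2 + A) := by
  have h := Complex.norm_iteratedDeriv_le_of_forall_mem_sphere_norm_le (c := z) (R := 1)
    (C := Real.exp (A * (‖z‖ + 1) ^ 2 + A)) n one_pos hF.diffContOnCl (by
      intro w hw
      refine (hFb w).trans (Real.exp_le_exp.mpr ?_)
      have h1 : ‖w‖ ≤ ‖z‖ + 1 := by
        have h2 : ‖w - z‖ = 1 := by simpa [dist_eq_norm] using hw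
        calc ‖w‖ = ‖z + (w - z)‖ := by ring_nf
          _ ≤ ‖z‖ + ‖w - z‖ := norm_add_le _ _
          _ = ‖z‖ + 1 := by rw [h2]
      have : ‖w‖ ^ 2 ≤ (‖z‖ + 1) ^ 2 := by gcongr
      nlinarith)
  simpa using h

/-- truncated equation -/
lemma trunc {l : ℕ → ℝ} (hl : Lam l) {F f : ℂ → ℂ} (hF : Differentiable ℂ F) {A : ℝ} (hA : 0 ≤ A)
    (hFb : ∀ z, ‖F z‖ ≤ Real.exp (A * ‖z‖ ^ 2 + A))
    (heq : ∀ z, HasSum (fun n => a l n * iteratedDeriv n F z) (f z)) (k : ℕ) (z : ℂ) :
    ‖f z - ∑ n ∈ Finset.range (k + 2), a l n * iteratedDeriv n F z‖ ≤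
      Real.exp (A * (‖z‖ + 1) ^ 2 + A) / l (k + 1) * 2 := by
  have h1 := (hasSum_nat_add_iff' (k + 2)).mpr (heq z)
  rw [← h1.tsum_eq]
  apply tsum_of_norm_bounded (hasSum_geometric_two.mul_left
    (Real.exp (A * (‖z‖ + 1) ^ 2 + A) / l (k + 1)))
  intro n
  rw [norm_mul, norm_a hl]
  have h2 := cauchy hF hA hFb (n + (k + 2)) z
  have h3 := q_tail hl k n
  have h4 := P_pos hl (n + (k + 2))
  calc 1 / P l (n + (k + 2)) * ‖iteratedDeriv (n + (k + 2)) F z‖
      ≤ 1 / P l (n + (k + 2)) * ((n + (k + 2)).factorial * Real.exp (A * (‖z‖ + 1) ^ 2 + A)) := by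
        gcongr
    _ = ((n + (k + 2)).factorial : ℝ) / P l (n + (k + 2)) * Real.exp (A * (‖z‖ + 1) ^ 2 + A) := by
        ring
    _ ≤ (1 / l (k + 1)) * (1 / 2) ^ n * Real.exp (A * (‖z‖ + 1) ^ 2 + A) := by gcongr
    _ = _ := by ring

/-- rays on which `f` is bounded by one: the upper bound at intermediate scales -/
lemma ray {l : ℕ → ℝ} (hl : Lam l) {F f : ℂ → ℂ} (hF : Differentiable ℂ F) {A : ℝ} (hA : 0 ≤ A)
    (hFb : ∀ z, ‖F z‖ ≤ Real.exp (A * ‖z‖ ^ 2 + A)) (k : ℕ) (R : ℝ)
    (htr : ∀ z : ℂ, ‖z‖ ≤ R →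
      ‖f z - ∑ n ∈ Finset.range (k + 2), a l n * iteratedDeriv n F z‖ ≤ 1)
    (u : ℂ) (hu : ‖u‖ = 1) (hfu : ∀ s : ℝ, 0 ≤ s → ‖f (s * u)‖ ≤ 1) (r : ℝ) (hr0 : 0 ≤ r)
    (hr : r ≤ R) :
    ‖F (r * u)‖ ≤ (Real.exp (2 * A) + 2) * Real.exp ((k + 1) * l k * r) := by
  have hlk := l_pos hl k
  set V : ℝ → (Fin (k + 1) → ℂ) := fun s n => iteratedDeriv n F (s * u) / (P l n : ℂ) with hV
  set V' : ℝ → (Fin (k + 1) → ℂ) := fun s n =>
    iteratedDeriv (n + 1) F (s * u) * u / (P l n : ℂ) with hV'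
  have hder : ∀ n : ℕ, ∀ z : ℂ, HasDerivAt (iteratedDeriv n F) (iteratedDeriv (n + 1) F z) z := by
    intro n z
    rw [iteratedDeriv_succ]
    apply DifferentiableAt.hasDerivAt
    have : ContDiff ℂ (n + 1 : ℕ) F := hF.contDiff
    exact (this.differentiable_iteratedDeriv n (by exact_mod_cast Nat.lt_succ_self n)) z
  have hVd : ∀ s : ℝ, HasDerivAt V (V' s) s := by
    intro s
    rw [hasDerivAt_pi]
    intro n
    simp only [hV, hV']
    have h1 : HasDerivAt (fun s : ℝ => (s : ℂ) * u) u s := by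
      simpa using (Complex.ofRealCLM.hasDerivAt (x := s)).mul_const u
    have h2 := (hder n (s * u)).comp s h1
    exact h2.div_const _
  have hPn : ∀ n, ‖(P l n : ℂ)‖ = P l n := fun n => by
    rw [Complex.norm_real, Real.norm_eq_abs, abs_of_pos (P_pos hl n)]
  have hbound : ∀ s ∈ Set.Ico (0:ℝ) r, ‖V' s‖ ≤ ((k + 1) * l k) * ‖V s‖ + 2 * l k := by
    intro s hs
    have hVs : 0 ≤ ‖V s‖ := norm_nonneg _
    rw [pi_norm_le_iff_of_nonneg (by positivity)]
    intro n
    have hcomp : ∀ m : Fin (k + 1), ‖iteratedDeriv m F (s * u)‖ / P l m ≤ ‖V s‖ := by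
      intro m
      have := norm_le_pi_norm (V s) m
      simp only [hV] at this
      rwa [norm_div, hPn] at this
    have hn : ‖V' s n‖ = ‖iteratedDeriv (n + 1) F (s * u)‖ / P l n := by
      simp only [hV']
      rw [norm_div, norm_mul, hu, mul_one, hPn]
    rw [hn]
    rcases Nat.lt_or_ge ((n : ℕ) + 1) (k + 1) with hlt | hge
    · have h1 := hcomp ⟨(n : ℕ) + 1, hlt⟩
      simp only at h1
      have hPp := P_pos hl (n : ℕ)
      have hlp := l_pos hl (n : ℕ)
      rw [P_succ] at h1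
      have h2 : ‖iteratedDeriv (n + 1) F (s * u)‖ / P l n =
          l n * (‖iteratedDeriv (n + 1) F (s * u)‖ / (P l n * l n)) := by
        field_simp
      rw [h2]
      have h3 : l (n : ℕ) ≤ l k := l_mono hl (by omega)
      calc l n * (‖iteratedDeriv (n + 1) F (s * u)‖ / (P l n * l n))
          ≤ l k * ‖V s‖ := by gcongr
        _ ≤ ((k + 1) * l k) * ‖V s‖ + 2 * l k := by
          have : 0 ≤ (k : ℝ) * l k * ‖V s‖ := by positivity
          nlinarith
    · have hnk : (n : ℕ) = k := by have := n.2; omega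
      rw [hnk]
      have hz : ‖(s : ℂ) * u‖ ≤ R := by
        rw [norm_mul, hu, mul_one, Complex.norm_real, Real.norm_eq_abs, abs_of_nonneg hs.1]
        linarith [hs.2]
      have h1 := htr _ hz
      have h2 := hfu s hs.1
      rw [Finset.sum_range_succ] at h1
      set S := ∑ n ∈ Finset.range (k + 1), a l n * iteratedDeriv n F (s * u) with hS
      set X := a l (k + 1) * iteratedDeriv (k + 1) F (s * u) with hX
      have hSb : ‖S‖ ≤ (k + 1) * ‖V s‖ := by
        calc ‖S‖ ≤ ∑ n ∈ Finset.range (k + 1), ‖a l n * iteratedDeriv n F (s * u)‖ :=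
              norm_sum_le _ _
          _ ≤ ∑ n ∈ Finset.range (k + 1), ‖V s‖ := by
              apply Finset.sum_le_sum
              intro m hm
              rw [norm_mul, norm_a hl]
              have := hcomp ⟨m, Finset.mem_range.mp hm⟩
              simp only at this
              rw [one_div, inv_mul_eq_div]
              exact this
          _ = (k + 1) * ‖V s‖ := by
              rw [Finset.sum_const, Finset.card_range, nsmul_eq_mul]
              push_cast
              ring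
      have hXb : ‖X‖ ≤ 2 + (k + 1) * ‖V s‖ := by
        have : X = f (s * u) - (f (s * u) - (S + X)) - S := by ring
        rw [this]
        calc ‖f (s * u) - (f (s * u) - (S + X)) - S‖
            ≤ ‖f (s * u)‖ + ‖f (s * u) - (S + X)‖ + ‖S‖ := by
              refine (norm_sub_le _ _).trans ?_
              gcongr
              exact norm_sub_le _ _
          _ ≤ 1 + 1 + (k + 1) * ‖V s‖ := by gcongr
          _ = _ := by ring
      rw [hX, norm_mul, norm_a hl, P_succ] at hXb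
      have hPp := P_pos hl k
      have h3 : ‖iteratedDeriv (k + 1) F (s * u)‖ / P l k =
          l k * (1 / (P l k * l k) * ‖iteratedDeriv (k + 1) F (s * u)‖) := by
        field_simp
      rw [h3]
      calc l k * (1 / (P l k * l k) * ‖iteratedDeriv (k + 1) F (s * u)‖)
          ≤ l k * (2 + (k + 1) * ‖V s‖) := by gcongr
        _ = _ := by ring
  have h0 : ‖V 0‖ ≤ Real.exp (2 * A) := by
    rw [pi_norm_le_iff_of_nonneg (Real.exp_pos _).le]
    intro n
    simp only [hV]
    rw [norm_div, hPn]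
    have h1 := cauchy hF hA hFb n ((0:ℝ) * u)
    have h2 : ‖((0:ℝ) : ℂ) * u‖ = 0 := by simp
    rw [h2] at h1
    have h3 : A * (0 + 1) ^ 2 + A = 2 * A := by ring
    rw [h3] at h1
    rw [div_le_iff₀ (P_pos hl n)]
    refine h1.trans ?_
    rw [mul_comm]
    gcongr
    exact fac_le_P hl n
  have hK : ((k : ℝ) + 1) * l k ≠ 0 := by positivity
  have hcont : ContinuousOn V (Set.Icc 0 r) := fun s _ =>
    (hVd s).continuousAt.continuousWithinAt
  have hG := norm_le_gronwallBound_of_norm_deriv_right_le (f := V) (f' := V')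
    (δ := Real.exp (2 * A)) (K := (k + 1) * l k) (ε := 2 * l k) (a := 0) (b := r) hcont
    (fun s _ => (hVd s).hasDerivWithinAt) h0 hbound r ⟨hr0, le_rfl⟩
  rw [gronwallBound_of_K_ne_0 hK, sub_zero] at hG
  have hF0 : ‖F (r * u)‖ ≤ ‖V r‖ := by
    have h := norm_le_pi_norm (V r) 0
    have h' : V r 0 = F (r * u) := by simp [hV, P]
    rwa [h'] at h
  have hE : 1 ≤ Real.exp ((k + 1) * l k * r) := by
    rw [← Real.exp_zero]
    apply Real.exp_le_exp.mpr
    positivity
  have h4 : 2 * l k / ((k + 1) * l k) ≤ 2 := by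
    rw [div_le_iff₀ (by positivity)]
    have : 0 ≤ (k : ℝ) * l k := by positivity
    nlinarith
  have h5 : 2 * l k / ((k + 1) * l k) * (Real.exp ((k + 1) * l k * r) - 1) ≤
      2 * (Real.exp ((k + 1) * l k * r) - 1) := mul_le_mul_of_nonneg_right h4 (by linarith)
  linarith

/-- alternating partial sums from the top -/
noncomputable def alt (u : ℕ → ℝ) : ℕ → ℝ
  | 0 => u 0
  | (n + 1) => u (n + 1) - alt u n

lemma alt_bounds (u : ℕ → ℝ) (h0 : 0 ≤ u 0) (m : ℕ) (hu : ∀ n < m, u n ≤ u (n + 1)) :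
    0 ≤ alt u m ∧ alt u m ≤ u m := by
  induction m with
  | zero => exact ⟨h0, le_rfl⟩
  | succ m ih =>
    have ih := ih fun n hn => hu n (by omega)
    have := hu m (by omega)
    simp only [alt]
    constructor <;> linarith [ih.1, ih.2]

lemma alt_eq (u : ℕ → ℝ) (m : ℕ) :
    ∑ n ∈ Finset.range (m + 1), (-1) ^ n * u n = (-1) ^ m * alt u m := by
  induction m with
  | zero => simp [alt]
  | succ m ih =>
    rw [Finset.sum_range_succ, ih]
    simp only [alt, pow_succ]
    ring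

/-- the truncated polynomial has a real root near `l (k+1)` -/
lemma root {l : ℕ → ℝ} (hl : Lam l) (k : ℕ) : ∃ t ∈ Set.Icc (l (k + 1) / 2) (l (k + 1)),
    ∑ n ∈ Finset.range (k + 3), (-1) ^ n * (t ^ n / P l n) = 0 := by
  set p : ℝ → ℝ := fun t => ∑ n ∈ Finset.range (k + 3), (-1) ^ n * (t ^ n / P l n) with hp
  have hL := l_pos hl (k + 1)
  have hpc : Continuous p := by
    rw [hp]
    fun_prop
  have hmono : ∀ t, l (k + 1) / 2 ≤ t → ∀ n < k + 1, t ^ n / P l n ≤ t ^ (n + 1) / P l (n + 1) := by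
    intro t ht n hn
    have h1 := P_pos hl n
    have h2 := l_pos hl n
    have h3 : l n ≤ t := by
      have h4 : l n ≤ l k := l_mono hl (by omega)
      have h5 := four_mul_le hl k
      have := l_pos hl k
      linarith
    have ht0 : 0 < t := by linarith
    rw [P_succ, pow_succ, div_le_div_iff₀ h1 (by positivity)]
    calc t ^ n * (P l n * l n) ≤ t ^ n * (P l n * t) := by gcongr
      _ = t ^ n * t * P l n := by ring
  -- value at `l (k+1)`
  have hv : ∀ t, p t = (-1) ^ k * (t ^ (k + 2) / P l (k + 2) - t ^ (k + 1) / P l (k + 1)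
      + alt (fun n => t ^ n / P l n) k) := by
    intro t
    have := alt_eq (fun n => t ^ n / P l n) (k + 2)
    simp only [hp]
    rw [this]
    simp only [alt]
    rw [pow_add]
    ring
  have h1 : 0 ≤ (-1) ^ k * p (l (k + 1)) := by
    rw [hv, ← mul_assoc, ← mul_pow]
    norm_num
    have h2 := (alt_bounds (fun n => (l (k + 1)) ^ n / P l n) (by simp [P]) k
      (fun n hn => hmono _ (by linarith) n (by omega))).1
    have h3 : l (k + 1) ^ (k + 2) / P l (k + 2) = l (k + 1) ^ (k + 1) / P l (k + 1) := by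
      rw [show k + 2 = k + 1 + 1 by ring, P_succ, pow_succ]
      have := P_pos hl (k + 1)
      field_simp
    rw [h3]
    linarith
  have h2 : (-1) ^ k * p (l (k + 1) / 2) ≤ 0 := by
    rw [hv, ← mul_assoc, ← mul_pow]
    norm_num
    set t := l (k + 1) / 2 with ht
    have ht0 : 0 < t := by positivity
    have h2 := (alt_bounds (fun n => t ^ n / P l n) (by simp [P]) k
      (fun n hn => hmono _ le_rfl n (by omega))).2
    have h3 : t ^ (k + 2) / P l (k + 2) = t ^ (k + 1) / P l (k + 1) / 2 := by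
      rw [show k + 2 = k + 1 + 1 by ring, P_succ, pow_succ]
      have := P_pos hl (k + 1)
      rw [ht]
      field_simp
    have h4 : 2 * (t ^ k / P l k) ≤ t ^ (k + 1) / P l (k + 1) := by
      have h5 := P_pos hl k
      have h6 := l_pos hl k
      have h7 := four_mul_le hl k
      have h8 : 2 * l k ≤ t := by rw [ht]; linarith
      rw [P_succ, pow_succ, ← mul_div_assoc, div_le_div_iff₀ h5 (by positivity)]
      calc 2 * t ^ k * (P l k * l k) = t ^ k * P l k * (2 * l k) := by ring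
        _ ≤ t ^ k * P l k * t := by gcongr
        _ = t ^ k * t * P l k := by ring
    rw [h3]
    linarith
  have hle : l (k + 1) / 2 ≤ l (k + 1) := by linarith
  rcases Nat.even_or_odd k with he | ho
  · rw [he.neg_one_pow, one_mul] at h1 h2
    exact intermediate_value_Icc hle hpc.continuousOn ⟨h2, h1⟩
  · rw [ho.neg_one_pow] at h1 h2
    exact intermediate_value_Icc' hle hpc.continuousOn ⟨by linarith, by linarith⟩

/-- algebraic identity behind the integrating factor -/
lemma telescope (α G : ℕ → ℂ) (t : ℂ) (ht : t ≠ 0) (m : ℕ) :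
    ∑ j ∈ Finset.range m, (-(∑ n ∈ Finset.range (j + 1), α n * t ^ n) / t ^ (j + 1)) *
      (G (j + 1) - t * G j) =
    ∑ n ∈ Finset.range m, α n * G n - (∑ n ∈ Finset.range m, α n * t ^ n) / t ^ m * G m := by
  induction m with
  | zero => simp
  | succ m ih =>
    rw [Finset.sum_range_succ, ih, Finset.sum_range_succ (fun n => α n * G n)]
    rw [Finset.sum_range_succ (fun n => α n * t ^ n) m]
    have : t ^ m ≠ 0 := pow_ne_zero _ ht
    field_simp
    ring

/-- multiplier coefficients -/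
noncomputable def bb (l : ℕ → ℝ) (t : ℝ) (j : ℕ) : ℂ :=
  -(∑ n ∈ Finset.range (j + 1), a l n * (t : ℂ) ^ n) / (t : ℂ) ^ (j + 1)

lemma norm_bb {l : ℕ → ℝ} (hl : Lam l) (t : ℝ) (ht : 1 ≤ t) (j : ℕ) : ‖bb l t j‖ ≤ j + 1 := by
  unfold bb
  rw [norm_div, norm_neg, norm_pow, Complex.norm_real, Real.norm_eq_abs,
    abs_of_pos (by linarith), div_le_iff₀ (by positivity)]
  calc ‖∑ n ∈ Finset.range (j + 1), a l n * (t : ℂ) ^ n‖
      ≤ ∑ n ∈ Finset.range (j + 1), ‖a l n * (t : ℂ) ^ n‖ := norm_sum_le _ _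
    _ ≤ ∑ n ∈ Finset.range (j + 1), t ^ (j + 1) := by
        apply Finset.sum_le_sum
        intro n hn
        rw [norm_mul, norm_a hl, norm_pow, Complex.norm_real, Real.norm_eq_abs,
          abs_of_pos (by linarith)]
        have h1 := one_le_P hl n
        have h2 : 1 / P l n ≤ 1 := by rw [div_le_one (by linarith)]; exact h1
        have h3 : t ^ n ≤ t ^ (j + 1) := pow_le_pow_right₀ ht (Finset.mem_range.mp hn).le
        calc 1 / P l n * t ^ n ≤ 1 * t ^ (j + 1) := by gcongr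
          _ = _ := one_mul _
    _ = (j + 1) * t ^ (j + 1) := by
        rw [Finset.sum_const, Finset.card_range, nsmul_eq_mul]
        push_cast
        ring

/-- the multiplier -/
noncomputable def W (l : ℕ → ℝ) (F : ℂ → ℂ) (t : ℝ) (k : ℕ) (z : ℂ) : ℂ :=
  ∑ j ∈ Finset.range (k + 2), bb l t j * iteratedDeriv j F z

lemma hder {F : ℂ → ℂ} (hF : Differentiable ℂ F) (n : ℕ) (z : ℂ) :
    HasDerivAt (iteratedDeriv n F) (iteratedDeriv (n + 1) F z) z := by
  rw [iteratedDeriv_succ]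
  apply DifferentiableAt.hasDerivAt
  have : ContDiff ℂ (n + 1 : ℕ) F := hF.contDiff
  exact (this.differentiable_iteratedDeriv n (by exact_mod_cast Nat.lt_succ_self n)) z

lemma W_hasDerivAt (l : ℕ → ℝ) {F : ℂ → ℂ} (hF : Differentiable ℂ F) (t : ℝ) (k : ℕ) (z : ℂ) :
    HasDerivAt (W l F t k) (∑ j ∈ Finset.range (k + 2), bb l t j * iteratedDeriv (j + 1) F z) z := by
  unfold W
  apply HasDerivAt.fun_sum
  intro j _
  exact (hder hF j z).const_mul _

lemma W_ode {l : ℕ → ℝ} (F : ℂ → ℂ) (t : ℝ) (ht : 0 < t) (k : ℕ)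
    (h0 : ∑ n ∈ Finset.range (k + 3), (-1) ^ n * (t ^ n / P l n) = 0) (z : ℂ) :
    ∑ j ∈ Finset.range (k + 2), bb l t j * iteratedDeriv (j + 1) F z - t * W l F t k z =
      ∑ n ∈ Finset.range (k + 3), a l n * iteratedDeriv n F z := by
  have htc : (t : ℂ) ≠ 0 := by exact_mod_cast ht.ne'
  have h1 := telescope (a l) (fun n => iteratedDeriv n F z) t htc (k + 2)
  have h2 : ∑ n ∈ Finset.range (k + 3), a l n * (t : ℂ) ^ n = 0 := by
    have h3 : ((∑ n ∈ Finset.range (k + 3), (-1) ^ n * (t ^ n / P l n) : ℝ) : ℂ) = 0 := by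
      rw [h0]; simp
    rw [← h3]
    push_cast
    apply Finset.sum_congr rfl
    intro n _
    unfold a
    ring
  rw [Finset.sum_range_succ] at h2
  have h4 : ∑ n ∈ Finset.range (k + 2), a l n * (t : ℂ) ^ n = -(a l (k + 2) * (t : ℂ) ^ (k + 2)) :=
    eq_neg_of_add_eq_zero_left h2
  rw [h4] at h1
  rw [Finset.sum_range_succ (fun n => a l n * iteratedDeriv n F z) (k + 2)]
  have h5 : (t : ℂ) ^ (k + 2) ≠ 0 := pow_ne_zero _ htc
  have h6 : -(a l (k + 2) * (t : ℂ) ^ (k + 2)) / (t : ℂ) ^ (k + 2) = -a l (k + 2) := by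
    field_simp
  rw [h6] at h1
  rw [neg_mul, sub_neg_eq_add] at h1
  rw [← h1]
  unfold W bb
  rw [Finset.mul_sum, ← Finset.sum_sub_distrib]
  apply Finset.sum_congr rfl
  intro j _
  ring

/-- the lower bound for the multiplier -/
lemma W_lower {l : ℕ → ℝ} {F : ℂ → ℂ} (hF : Differentiable ℂ F) (t : ℝ) (ht : 8 ≤ t) (k : ℕ)
    (h0 : ∑ n ∈ Finset.range (k + 3), (-1) ^ n * (t ^ n / P l n) = 0)
    (htr : ∀ z : ℂ, ‖z‖ ≤ 2 * t →
      ‖Complex.exp (z ^ 2) - ∑ n ∈ Finset.range (k + 3), a l n * iteratedDeriv n F z‖ ≤ 1) :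
    Real.exp (t ^ 2 / 4 - 1) ≤ ‖W l F t k (t / 2 + t * Complex.I)‖ +
      ‖W l F t k (t / 2 + (-t : ℝ) * Complex.I)‖ := by
  set w : ℝ → ℂ := fun y => Complex.exp (-(t * ((t : ℂ) / 2 + y * Complex.I))) *
    W l F t k (t / 2 + y * Complex.I) with hw
  have hz : ∀ y : ℝ, HasDerivAt (fun y : ℝ => (t : ℂ) / 2 + y * Complex.I) Complex.I y := by
    intro y
    have := (Complex.ofRealCLM.hasDerivAt (x := y)).mul_const Complex.I
    simpa using this.const_add ((t : ℂ) / 2)
  have hwd : ∀ y : ℝ, HasDerivAt w (Complex.I *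
      (Complex.exp (-(t * ((t : ℂ) / 2 + y * Complex.I))) *
        ∑ n ∈ Finset.range (k + 3), a l n * iteratedDeriv n F (t / 2 + y * Complex.I))) y := by
    intro y
    have h1 : HasDerivAt (fun y : ℝ => Complex.exp (-(t * ((t : ℂ) / 2 + y * Complex.I))))
        (Complex.exp (-(t * ((t : ℂ) / 2 + y * Complex.I))) * (-(t * Complex.I))) y :=
      ((hz y).const_mul (t : ℂ)).fun_neg.cexp
    have h2 := (W_hasDerivAt l hF t k ((t : ℂ) / 2 + y * Complex.I)).comp y (hz y)
    have h3 := h1.mul h2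
    refine h3.congr_deriv ?_
    rw [← W_ode F t (by linarith) k h0]
    simp only [Function.comp]
    ring
  have hvd : ∀ y : ℝ, HasDerivAt (fun y => (w y).im) ((Complex.I *
      (Complex.exp (-(t * ((t : ℂ) / 2 + y * Complex.I))) *
        ∑ n ∈ Finset.range (k + 3), a l n * iteratedDeriv n F (t / 2 + y * Complex.I))).im) y := by
    intro y
    exact Complex.imCLM.hasFDerivAt.comp_hasDerivAt y (hwd y)
  have hnexp : ∀ y : ℝ, ‖Complex.exp (-(t * ((t : ℂ) / 2 + y * Complex.I)))‖ =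
      Real.exp (-(t ^ 2 / 2)) := by
    intro y
    rw [Complex.norm_exp]
    congr 1
    simp
    ring
  have hlow : ∀ y : ℝ, |y| ≤ t → Real.exp (-(t ^ 2 / 4) - y ^ 2) - Real.exp (-(t ^ 2 / 2)) ≤
      (Complex.I * (Complex.exp (-(t * ((t : ℂ) / 2 + y * Complex.I))) *
        ∑ n ∈ Finset.range (k + 3), a l n * iteratedDeriv n F (t / 2 + y * Complex.I))).im := by
    intro y hy
    set z : ℂ := (t : ℂ) / 2 + y * Complex.I with hzd
    set T := ∑ n ∈ Finset.range (k + 3), a l n * iteratedDeriv n F z with hT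
    have hzn : ‖z‖ ≤ 2 * t := by
      calc ‖z‖ ≤ ‖(t : ℂ) / 2‖ + ‖(y : ℂ) * Complex.I‖ := norm_add_le _ _
        _ = t / 2 + |y| := by
          rw [norm_div, norm_mul, Complex.norm_I, Complex.norm_real, Complex.norm_real,
            Real.norm_eq_abs, Real.norm_eq_abs, abs_of_pos (by linarith : 0 < t)]
          simp
        _ ≤ 2 * t := by linarith
    have h1 := htr z hzn
    have h2 : (Complex.I * (Complex.exp (-(t * z)) * T)).im = (Complex.exp (-(t * z)) * T).re := by
      simp [Complex.mul_im]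
    rw [h2]
    have h3 : Complex.exp (-(t * z)) * T = Complex.exp (-(t * z)) * Complex.exp (z ^ 2) -
        Complex.exp (-(t * z)) * (Complex.exp (z ^ 2) - T) := by ring
    have h4 : Complex.exp (-(t * z)) * Complex.exp (z ^ 2) =
        ((Real.exp (-(t ^ 2 / 4) - y ^ 2) : ℝ) : ℂ) := by
      rw [← Complex.exp_add, Complex.ofReal_exp]
      congr 1
      rw [hzd]
      push_cast
      have : Complex.I ^ 2 = -1 := Complex.I_sq
      linear_combination (y : ℂ) ^ 2 * this
    rw [h3, h4, Complex.sub_re, Complex.ofReal_re]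
    have h5 : (Complex.exp (-(t * z)) * (Complex.exp (z ^ 2) - T)).re ≤ Real.exp (-(t ^ 2 / 2)) := by
      refine (Complex.re_le_norm _).trans ?_
      rw [norm_mul, hnexp]
      calc Real.exp (-(t ^ 2 / 2)) * ‖Complex.exp (z ^ 2) - T‖ ≤ Real.exp (-(t ^ 2 / 2)) * 1 := by
            gcongr
        _ = _ := mul_one _
    linarith
  set v : ℝ → ℝ := fun y => (w y).im with hv
  have hvc : Continuous v := continuous_iff_continuousAt.mpr fun y => (hvd y).continuousAt
  have hpiece : ∀ p q C : ℝ, p ≤ q → (∀ y ∈ Set.Ioo p q, C ≤ deriv v y) →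
      C * (q - p) ≤ v q - v p := by
    intro p q C hpq hC
    apply (convex_Icc p q).mul_sub_le_image_sub_of_le_deriv hvc.continuousOn
      (fun y _ => (hvd y).differentiableAt.differentiableWithinAt) _ p (Set.left_mem_Icc.mpr hpq)
      q (Set.right_mem_Icc.mpr hpq) hpq
    intro y hy
    rw [interior_Icc] at hy
    exact hC y hy
  have e0 : 0 < Real.exp (-(t ^ 2 / 2)) := Real.exp_pos _
  have p1 := hpiece (-t) (-1) (-Real.exp (-(t ^ 2 / 2))) (by linarith) (by
    intro y hy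
    rw [(hvd y).deriv]
    have := hlow y (abs_le.mpr ⟨by linarith [hy.1], by linarith [hy.2]⟩)
    have := Real.exp_pos (-(t ^ 2 / 4) - y ^ 2)
    linarith)
  have p3 := hpiece 1 t (-Real.exp (-(t ^ 2 / 2))) (by linarith) (by
    intro y hy
    rw [(hvd y).deriv]
    have := hlow y (abs_le.mpr ⟨by linarith [hy.1], by linarith [hy.2]⟩)
    have := Real.exp_pos (-(t ^ 2 / 4) - y ^ 2)
    linarith)
  have p2 := hpiece (-1) 1 (Real.exp (-(t ^ 2 / 4) - 1) - Real.exp (-(t ^ 2 / 2))) (by norm_num) (by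
    intro y hy
    rw [(hvd y).deriv]
    have h1 := hlow y (abs_le.mpr ⟨by linarith [hy.1], by linarith [hy.2]⟩)
    have h2 : Real.exp (-(t ^ 2 / 4) - 1) ≤ Real.exp (-(t ^ 2 / 4) - y ^ 2) := by
      apply Real.exp_le_exp.mpr
      have : y ^ 2 ≤ 1 := by
        rw [sq_le_one_iff_abs_le_one, abs_le]
        exact ⟨hy.1.le, hy.2.le⟩
      linarith
    linarith)
  have hbig : 2 * t * Real.exp (-(t ^ 2 / 2)) ≤ Real.exp (-(t ^ 2 / 4) - 1) := by
    have h1 : 2 * t ≤ Real.exp (t ^ 2 / 4 - 1) := by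
      have := Real.add_one_le_exp (t ^ 2 / 4 - 1)
      nlinarith
    calc 2 * t * Real.exp (-(t ^ 2 / 2)) ≤ Real.exp (t ^ 2 / 4 - 1) * Real.exp (-(t ^ 2 / 2)) := by
          gcongr
      _ = Real.exp (-(t ^ 2 / 4) - 1) := by
          rw [← Real.exp_add]
          congr 1
          ring
  have hsum : Real.exp (-(t ^ 2 / 4) - 1) ≤ v t - v (-t) := by
    nlinarith
  have hw1 : ∀ y : ℝ, ‖w y‖ = Real.exp (-(t ^ 2 / 2)) * ‖W l F t k (t / 2 + y * Complex.I)‖ := by
    intro y
    simp only [hw]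
    rw [norm_mul, hnexp]
  have h1 : v t ≤ ‖w t‖ := Complex.im_le_norm _
  have h2 : -v (-t) ≤ ‖w (-t)‖ := by
    have := Complex.abs_im_le_norm (w (-t))
    exact (neg_le_abs _).trans this
  rw [hw1] at h1 h2
  have h3 : Real.exp (-(t ^ 2 / 4) - 1) = Real.exp (-(t ^ 2 / 2)) * Real.exp (t ^ 2 / 4 - 1) := by
    rw [← Real.exp_add]
    congr 1
    ring
  have h4 : Real.exp (-(t ^ 2 / 2)) * Real.exp (t ^ 2 / 4 - 1) ≤
      Real.exp (-(t ^ 2 / 2)) * (‖W l F t k (t / 2 + t * Complex.I)‖ +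
      ‖W l F t k (t / 2 + (-t : ℝ) * Complex.I)‖) := by
    rw [← h3, mul_add]
    linarith
  exact le_of_mul_le_mul_left h4 e0

/-- upper bound for the multiplier in terms of a circle -/
lemma W_upper {l : ℕ → ℝ} (hl : Lam l) {F : ℂ → ℂ} (hF : Differentiable ℂ F) (t : ℝ) (ht : 1 ≤ t)
    (k : ℕ) (c : ℂ) (ϱ : ℝ) (hϱ : 1 ≤ ϱ) (M : ℝ) (hM : 0 ≤ M)
    (hb : ∀ z ∈ Metric.sphere c ϱ, ‖F z‖ ≤ M) : ‖W l F t k c‖ ≤ l (k + 1) * M := by
  unfold W
  have hfac : ((k : ℝ) + 2) * ((k + 2) * (k + 1).factorial) ≤ l (k + 1) := by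
    refine le_trans ?_ (hl.fac (k + 1))
    have : (k + 2) * ((k + 2) * (k + 1).factorial) ≤ (k + 1 + 2).factorial := by
      rw [show k + 1 + 2 = k + 2 + 1 by ring, Nat.factorial_succ (k + 2),
        Nat.factorial_succ (k + 1)]
      exact Nat.mul_le_mul (by omega) le_rfl
    exact_mod_cast this
  calc ‖∑ j ∈ Finset.range (k + 2), bb l t j * iteratedDeriv j F c‖
      ≤ ∑ j ∈ Finset.range (k + 2), ‖bb l t j * iteratedDeriv j F c‖ := norm_sum_le _ _
    _ ≤ ∑ j ∈ Finset.range (k + 2), (((k : ℝ) + 2) * (k + 1).factorial) * M := by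
        apply Finset.sum_le_sum
        intro j hj
        have hj' := Finset.mem_range.mp hj
        rw [norm_mul]
        have h1 := norm_bb hl t ht j
        have h2 := Complex.norm_iteratedDeriv_le_of_forall_mem_sphere_norm_le (c := c) (R := ϱ)
          (C := M) j (by linarith) hF.diffContOnCl hb
        have h3 : (j.factorial : ℝ) * M / ϱ ^ j ≤ (k + 1).factorial * M := by
          have h4 : 1 ≤ ϱ ^ j := one_le_pow₀ hϱ
          have h5 : (j.factorial : ℝ) ≤ (k + 1).factorial := by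
            exact_mod_cast Nat.factorial_le (by omega)
          rw [div_le_iff₀ (by linarith)]
          have h6 : (0:ℝ) ≤ (k + 1).factorial * M := by positivity
          calc (j.factorial : ℝ) * M ≤ (k + 1).factorial * M := by gcongr
            _ ≤ (k + 1).factorial * M * ϱ ^ j := le_mul_of_one_le_right h6 h4
        have h7 : (j : ℝ) + 1 ≤ k + 2 := by exact_mod_cast hj'
        calc ‖bb l t j‖ * ‖iteratedDeriv j F c‖ ≤ (k + 2) * ((k + 1).factorial * M) := by
              apply mul_le_mul (h1.trans h7) (h2.trans h3) (norm_nonneg _) (by positivity)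
          _ = _ := by ring
    _ = ((k : ℝ) + 2) * ((k + 2) * (k + 1).factorial) * M := by
        rw [Finset.sum_const, Finset.card_range, nsmul_eq_mul]
        push_cast
        ring
    _ ≤ l (k + 1) * M := by gcongr

lemma le_maxMod {F : ℂ → ℂ} (hF : Continuous F) (z : ℂ) : ‖F z‖ ≤ maxMod F ‖z‖ := by
  apply le_csSup
  · exact ((isCompact_sphere (0 : ℂ) ‖z‖).image (continuous_norm.comp hF)).bddAbove
  · exact ⟨z, by simp, rfl⟩

lemma growth {F : ℂ → ℂ} (hF : Differentiable ℂ F) (h : typ F (fun _ => 2) < ⊤) :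
    ∃ A : ℝ, 0 ≤ A ∧ ∀ z, ‖F z‖ ≤ Real.exp (A * ‖z‖ ^ 2 + A) := by
  obtain ⟨C, hC, -⟩ := EReal.lt_iff_exists_real_btwn.mp h
  have h1 := Filter.eventually_lt_of_limsup_lt hC
  obtain ⟨r0, hr0⟩ := (eventually_atTop.mp h1)
  obtain ⟨B, hB⟩ := (isCompact_closedBall (0 : ℂ) (max r0 1)).exists_bound_of_continuousOn
    hF.continuous.continuousOn
  refine ⟨|C| + |B|, by positivity, fun z => ?_⟩
  rcases le_total ‖z‖ (max r0 1) with hz | hz
  · have h2 := hB z (by simpa using hz)
    have h3 := Real.add_one_le_exp ((|C| + |B|) * ‖z‖ ^ 2 + (|C| + |B|))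
    have h4 : 0 ≤ (|C| + |B|) * ‖z‖ ^ 2 := by positivity
    have h5 := le_abs_self B
    have h6 := abs_nonneg C
    linarith
  · have hz1 : 1 ≤ ‖z‖ := (le_max_right _ _).trans hz
    have h2 := hr0 ‖z‖ ((le_max_left _ _).trans hz)
    rw [EReal.coe_lt_coe_iff] at h2
    have h3 : ‖z‖ ^ (-(2:ℝ)) = (‖z‖ ^ 2)⁻¹ := by
      rw [Real.rpow_neg (norm_nonneg _)]
      norm_num
    rw [h3, inv_mul_lt_iff₀ (by positivity)] at h2
    have h4 := le_maxMod hF.continuous z
    have hbound : Real.exp (‖z‖ ^ 2 * C) ≤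
        Real.exp ((|C| + |B|) * ‖z‖ ^ 2 + (|C| + |B|)) := by
      apply Real.exp_le_exp.mpr
      have h5 := le_abs_self C
      have h6 := abs_nonneg B
      have h7 := abs_nonneg C
      nlinarith [sq_nonneg ‖z‖, mul_le_mul_of_nonneg_left h5 (sq_nonneg ‖z‖),
        mul_nonneg h6 (sq_nonneg ‖z‖)]
    refine le_trans ?_ hbound
    rcases (norm_nonneg (F z)).eq_or_lt with h5 | h5
    · rw [← h5]; exact (Real.exp_pos _).le
    · refine h4.trans ?_
      rw [← Real.exp_log (h5.trans_le h4)]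
      exact Real.exp_le_exp.mpr h2.le

/-- circles avoiding a `C₀`-set -/
lemma circle {E : Set ℂ} (hE : IsC0Set E) : ∃ T0 : ℝ, 1 ≤ T0 ∧ ∀ T ≥ T0, ∀ c : ℂ, ‖c‖ ≤ 2 * T →
    ∃ ϱ ∈ Set.Icc (T / 8) (T / 4), ∀ z : ℂ, ‖z - c‖ = ϱ → z ∉ E := by
  obtain ⟨c, δ, hδ, hcov, hlim⟩ := hE
  set S : ℝ → ENNReal := fun R => ∑' j, if ‖c j‖ < R then ENNReal.ofReal (δ j) else 0 with hS
  have h1 : ∀ᶠ R : ℝ in atTop, S R / ENNReal.ofReal R < ENNReal.ofReal (1 / 100) :=
    hlim.eventually (gt_mem_nhds (by simp))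
  obtain ⟨R0, hR0⟩ := eventually_atTop.mp h1
  have hSle : ∀ R ≥ max R0 1, S R ≤ ENNReal.ofReal (R / 100) := by
    intro R hR
    have hRpos : 0 < R := lt_of_lt_of_le one_pos ((le_max_right _ _).trans hR)
    have h2 := (hR0 R ((le_max_left _ _).trans hR)).le
    rw [ENNReal.div_le_iff (by simpa using hRpos) ENNReal.ofReal_ne_top,
      ← ENNReal.ofReal_mul (by norm_num)] at h2
    convert h2 using 2
    ring
  have hδle : ∀ R ≥ max R0 1, ∀ j, ‖c j‖ < R → δ j ≤ R / 100 := by
    intro R hR j hj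
    have hRpos : 0 < R := lt_of_lt_of_le one_pos ((le_max_right _ _).trans hR)
    have h2 : ENNReal.ofReal (δ j) ≤ S R := by
      have := ENNReal.le_tsum (f := fun j => if ‖c j‖ < R then ENNReal.ofReal (δ j) else 0) j
      simpa [hj] using this
    exact (ENNReal.ofReal_le_ofReal_iff (by positivity)).mp (h2.trans (hSle R hR))
  refine ⟨max R0 1, le_max_right _ _, fun T hT d hd => ?_⟩
  have hTpos : 0 < T := lt_of_lt_of_le one_pos ((le_max_right _ _).trans hT)
  set B : ℕ → Set ℝ := fun j => if ‖c j‖ < 3 * T then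
    Set.Ioo (‖c j - d‖ - δ j) (‖c j - d‖ + δ j) else ∅ with hB
  have hvol : MeasureTheory.volume (⋃ j, B j) < MeasureTheory.volume (Set.Icc (T / 8) (T / 4)) := by
    calc MeasureTheory.volume (⋃ j, B j) ≤ ∑' j, MeasureTheory.volume (B j) :=
          MeasureTheory.measure_iUnion_le _
      _ = ∑' j, 2 * (if ‖c j‖ < 3 * T then ENNReal.ofReal (δ j) else 0) := by
          congr 1
          ext j
          simp only [hB]
          split_ifs
          · rw [Real.volume_Ioo, show ‖c j - d‖ + δ j - (‖c j - d‖ - δ j) = 2 * δ j by ring,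
              ENNReal.ofReal_mul (by norm_num)]
            simp
          · simp
      _ = 2 * S (3 * T) := by rw [ENNReal.tsum_mul_left]
      _ ≤ 2 * ENNReal.ofReal (3 * T / 100) := by
          gcongr
          exact hSle _ (by linarith)
      _ = ENNReal.ofReal (2 * (3 * T / 100)) := by
          rw [ENNReal.ofReal_mul (by norm_num)]
          simp
      _ < MeasureTheory.volume (Set.Icc (T / 8) (T / 4)) := by
          rw [Real.volume_Icc]
          apply (ENNReal.ofReal_lt_ofReal_iff (by linarith)).mpr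
          linarith
  obtain ⟨ϱ, hϱ, hϱB⟩ : ∃ ϱ ∈ Set.Icc (T / 8) (T / 4), ϱ ∉ ⋃ j, B j := by
    by_contra hcon
    push Not at hcon
    exact absurd (MeasureTheory.measure_mono hcon) (not_le.mpr hvol)
  refine ⟨ϱ, hϱ, fun z hz hzE => hϱB ?_⟩
  obtain ⟨j, hj⟩ := Set.mem_iUnion.mp (hcov hzE)
  rw [Metric.mem_ball, dist_eq_norm] at hj
  have hcj : ‖c j‖ < 3 * T := by
    by_contra hcon
    push Not at hcon
    have h3 := hδle (2 * ‖c j‖) (by linarith) j (by linarith)
    have h4 : ‖c j‖ ≤ ‖z - c j‖ + ‖z - d‖ + ‖d‖ := by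
      calc ‖c j‖ = ‖-(z - c j) + (z - d) + d‖ := by ring_nf
        _ ≤ ‖-(z - c j)‖ + ‖z - d‖ + ‖d‖ := by
          refine (norm_add_le _ _).trans ?_
          gcongr
          exact norm_add_le _ _
        _ = _ := by rw [norm_neg]
    have := hϱ.2
    linarith
  apply Set.mem_iUnion.mpr
  refine ⟨j, ?_⟩
  simp only [hB, if_pos hcj]
  have h5 : |‖z - d‖ - ‖c j - d‖| ≤ ‖z - c j‖ := by
    have := abs_norm_sub_norm_le (z - d) (c j - d)
    simpa using this
  rw [hz] at h5
  have h6 := abs_le.mp h5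
  exact ⟨by linarith [h6.1], by linarith [h6.2]⟩

/-- truncation is good on large discs -/
lemma trunc_one {l : ℕ → ℝ} (hl : Lam l) {F f : ℂ → ℂ} (hF : Differentiable ℂ F) {A : ℝ}
    (hA : 0 ≤ A) (hFb : ∀ z, ‖F z‖ ≤ Real.exp (A * ‖z‖ ^ 2 + A))
    (heq : ∀ z, HasSum (fun n => a l n * iteratedDeriv n F z) (f z)) (k : ℕ)
    (hk : 5 * A + 1 ≤ l k) (z : ℂ) (hz : ‖z‖ ≤ l k ^ 2) :
    ‖f z - ∑ n ∈ Finset.range (k + 2), a l n * iteratedDeriv n F z‖ ≤ 1 := by
  refine (trunc hl hF hA hFb heq k z).trans ?_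
  have h1 := l_pos hl (k + 1)
  have h2 := two_le hl k
  rw [div_mul_eq_mul_div, div_le_one h1]
  refine le_trans ?_ (hl.exp k)
  have h3 : (2:ℝ) ≤ Real.exp 1 := by
    have := Real.add_one_le_exp (1:ℝ)
    linarith
  calc Real.exp (A * (‖z‖ + 1) ^ 2 + A) * 2 ≤ Real.exp (A * (‖z‖ + 1) ^ 2 + A) * Real.exp 1 := by
        gcongr
    _ = Real.exp (A * (‖z‖ + 1) ^ 2 + A + 1) := by rw [← Real.exp_add]
    _ ≤ Real.exp ((l k) ^ 5) := by
        apply Real.exp_le_exp.mpr
        set x := l k with hx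
        have h4 : (‖z‖ + 1) ^ 2 ≤ (x ^ 2 + 1) ^ 2 := by gcongr
        have h5 : (x ^ 2 + 1) ^ 2 ≤ 4 * x ^ 4 := by
          have : x ^ 2 + 1 ≤ 2 * x ^ 2 := by nlinarith
          calc (x ^ 2 + 1) ^ 2 ≤ (2 * x ^ 2) ^ 2 := by gcongr
            _ = _ := by ring
        have h6 : 1 ≤ x ^ 4 := one_le_pow₀ (by linarith)
        have h7 : (5 * A + 1) * x ^ 4 ≤ x ^ 5 := by
          have : x ^ 5 = x * x ^ 4 := by ring
          rw [this]
          gcongr
        have h8 : A * (‖z‖ + 1) ^ 2 ≤ A * (4 * x ^ 4) := by gcongr; linarith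
        have h9 : A * 1 ≤ A * x ^ 4 := by gcongr
        nlinarith

lemma rpow_neg_two (r : ℝ) (hr : 0 < r) : r ^ (-(2:ℝ)) = (r ^ 2)⁻¹ := by
  rw [Real.rpow_neg hr.le]
  norm_num

/-- **Main lemma**: no solution is of completely regular growth. -/
theorem no_crg {l : ℕ → ℝ} (hl : Lam l) {F : ℂ → ℂ} (hF : Differentiable ℂ F)
    (heq : ∀ z, HasSum (fun n => a l n * iteratedDeriv n F z) (Complex.exp (z ^ 2))) :
    ¬ IsCRG F (fun _ => 2) := by
  rintro ⟨htyp, h, -, E, hE, hconv⟩
  obtain ⟨A, hA, hFb⟩ := growth hF htyp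
  obtain ⟨T0, hT0, hcirc⟩ := circle hE
  obtain ⟨R1, hR1⟩ := hconv (1 / 100) (by norm_num)
  -- upper bound on the limit function in good directions
  have upper : ∀ θ : ℝ, ((Complex.exp (θ * Complex.I)) ^ 2).re ≤ 0 → h θ ≤ 1 / 50 := by
    intro θ hθ
    set u := Complex.exp (θ * Complex.I) with hu
    have hun : ‖u‖ = 1 := Complex.norm_exp_ofReal_mul_I θ
    have hfu : ∀ s : ℝ, 0 ≤ s → ‖Complex.exp ((s * u) ^ 2)‖ ≤ 1 := by
      intro s hs
      rw [Complex.norm_exp, mul_pow]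
      have : ((s : ℂ) ^ 2 * u ^ 2).re = s ^ 2 * (u ^ 2).re := by
        rw [← Complex.ofReal_pow, Complex.re_ofReal_mul]
      rw [this]
      apply Real.exp_le_one_iff.mpr
      exact mul_nonpos_of_nonneg_of_nonpos (sq_nonneg _) hθ
    -- choose a scale
    have hl_at := l_tendsto hl
    have hev : ∀ᶠ k : ℕ in atTop, max (max (5 * A + 1) (2 * R1 + 2)) (max T0
        (20 * Real.log (Real.exp (2 * A) + 2))) ≤ l k := hl_at.eventually_ge_atTop _
    obtain ⟨k, hk1, hk2⟩ := (hev.and (eventually_ge_atTop 400)).exists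
    have k1 : 5 * A + 1 ≤ l k := ((le_max_left _ _).trans (le_max_left _ _)).trans hk1
    have k2 : 2 * R1 + 2 ≤ l k := ((le_max_right _ _).trans (le_max_left _ _)).trans hk1
    have k3 : T0 ≤ l k := ((le_max_left _ _).trans (le_max_right _ _)).trans hk1
    have k4 : 20 * Real.log (Real.exp (2 * A) + 2) ≤ l k :=
      ((le_max_right _ _).trans (le_max_right _ _)).trans hk1
    have k5 : (400 : ℝ) ≤ k := by exact_mod_cast hk2
    set x := l k with hx
    have hx2 : ((k : ℝ) + 2) * (k + 1) ≤ x := by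
      refine le_trans ?_ (hl.fac k)
      have : (k + 2) * (k + 1) ≤ (k + 2).factorial := by
        rw [Nat.factorial_succ, Nat.factorial_succ]
        apply Nat.mul_le_mul le_rfl
        exact Nat.le_mul_of_pos_right _ (Nat.factorial_pos k)
      exact_mod_cast this
    have hx400 : 400 ≤ x := by nlinarith
    obtain ⟨r, hr, hrE⟩ := hcirc (4 * x ^ 2) (by nlinarith) 0 (by simp; positivity)
    have hr1 : x ^ 2 / 2 ≤ r := by linarith [hr.1]
    have hr2 : r ≤ x ^ 2 := by linarith [hr.2]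
    have hrpos : 0 < r := by nlinarith
    have hnotin : (r : ℂ) * u ∉ E := by
      apply hrE
      rw [sub_zero, norm_mul, hun, mul_one, Complex.norm_real, Real.norm_eq_abs,
        abs_of_pos hrpos]
    obtain ⟨hne, hlt⟩ := hR1 r (by nlinarith) θ hnotin
    have hray := ray hl hF hA hFb k (x ^ 2) (fun z hz => trunc_one hl hF hA hFb heq k k1 z hz) u hun
      hfu r hrpos.le hr2
    have hlog : Real.log ‖F (r * u)‖ ≤ Real.log (Real.exp (2 * A) + 2) + (k + 1) * x * r := by
      have hpos : 0 < ‖F (r * u)‖ := norm_pos_iff.mpr hne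
      have h1 := Real.log_le_log hpos hray
      rwa [Real.log_mul (by positivity) (by positivity), Real.log_exp] at h1
    rw [rpow_neg_two r hrpos] at hlt
    have h2 : (r ^ 2)⁻¹ * Real.log ‖F (r * u)‖ ≤ 1 / 100 := by
      rw [inv_mul_le_iff₀ (by positivity)]
      have h3 : Real.log (Real.exp (2 * A) + 2) ≤ r ^ 2 / 200 := by
        have h4 : x ≤ r := by nlinarith
        have h5 : x ≤ r ^ 2 / 10 := by nlinarith
        linarith
      have h6 : ((k : ℝ) + 1) * x * r ≤ r ^ 2 / 200 := by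
        have h7 : ((k : ℝ) + 1) * 402 ≤ x := by nlinarith
        have h8 : ((k : ℝ) + 1) * x ≤ r / 200 := by
          have h9 : ((k : ℝ) + 1) * x ≤ (x / 402) * x := by
            gcongr
            linarith
          nlinarith
        calc ((k : ℝ) + 1) * x * r ≤ r / 200 * r := by gcongr
          _ = _ := by ring
      linarith
    have h3 := abs_lt.mp hlt
    linarith [h3.1]
  -- a large value in a good direction
  have hl_at := l_tendsto hl
  have hev : ∀ᶠ k : ℕ in atTop, max (max (5 * A + 1) (4 * |R1| + 80)) (max (2 * T0) 80) ≤ l (k + 1) :=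
    (hl_at.comp (tendsto_add_atTop_nat 1)).eventually_ge_atTop _
  obtain ⟨k, hk1⟩ := hev.exists
  have k1 : 5 * A + 1 ≤ l (k + 1) := ((le_max_left _ _).trans (le_max_left _ _)).trans hk1
  have k2 : 4 * |R1| + 80 ≤ l (k + 1) := ((le_max_right _ _).trans (le_max_left _ _)).trans hk1
  have k3 : 2 * T0 ≤ l (k + 1) := ((le_max_left _ _).trans (le_max_right _ _)).trans hk1
  have k4 : 80 ≤ l (k + 1) := ((le_max_right _ _).trans (le_max_right _ _)).trans hk1
  obtain ⟨t, ht, hroot⟩ := root hl k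
  have ht40 : 40 ≤ t := by linarith [ht.1]
  have htr : ∀ z : ℂ, ‖z‖ ≤ 2 * t →
      ‖Complex.exp (z ^ 2) - ∑ n ∈ Finset.range (k + 3), a l n * iteratedDeriv n F z‖ ≤ 1 := by
    intro z hz
    apply trunc_one hl hF hA hFb heq (k + 1) k1 z
    have := ht.2
    nlinarith
  have hlow := W_lower hF t (by linarith) k hroot htr
  have key : ∃ σ : ℝ, |σ| = t ∧ ∃ z : ℂ, z ∉ E ∧ ‖z - (t / 2 + σ * Complex.I)‖ ≤ t / 4 ∧
      Real.exp (t ^ 2 / 8) ≤ ‖F z‖ := by
    by_contra hcon
    push Not at hcon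
    have hW : ∀ σ : ℝ, |σ| = t → ‖W l F t k (t / 2 + σ * Complex.I)‖ ≤
        l (k + 1) * Real.exp (t ^ 2 / 8) := by
      intro σ hσ
      have hcn : ‖(t : ℂ) / 2 + σ * Complex.I‖ ≤ 2 * t := by
        calc ‖(t : ℂ) / 2 + σ * Complex.I‖ ≤ ‖(t : ℂ) / 2‖ + ‖(σ : ℂ) * Complex.I‖ := norm_add_le _ _
          _ = t / 2 + |σ| := by
            rw [norm_div, norm_mul, Complex.norm_I, Complex.norm_real, Complex.norm_real,
              Real.norm_eq_abs, Real.norm_eq_abs, abs_of_pos (by linarith : 0 < t)]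
            simp
          _ ≤ 2 * t := by linarith
      obtain ⟨ϱ, hϱ, hϱE⟩ := hcirc t (by linarith [ht.1]) _ hcn
      apply W_upper hl hF t (by linarith) k _ ϱ (by linarith [hϱ.1]) _ (Real.exp_pos _).le
      intro z hz
      rw [Metric.mem_sphere, dist_eq_norm] at hz
      exact (hcon σ hσ z (hϱE z hz) (by rw [hz]; exact hϱ.2)).le
    have w1 := hW t (abs_of_pos (by linarith))
    have w2 := hW (-t) (by rw [abs_neg]; exact abs_of_pos (by linarith))
    have h1 : Real.exp (t ^ 2 / 4 - 1) ≤ 4 * t * Real.exp (t ^ 2 / 8) := by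
      have : l (k + 1) * Real.exp (t ^ 2 / 8) ≤ 2 * t * Real.exp (t ^ 2 / 8) := by
        gcongr
        linarith [ht.1]
      linarith
    have h2 : Real.exp (t ^ 2 / 4 - 1) = Real.exp (t ^ 2 / 8 - 1) * Real.exp (t ^ 2 / 8) := by
      rw [← Real.exp_add]
      congr 1
      ring
    rw [h2] at h1
    have h3 := le_of_mul_le_mul_right h1 (Real.exp_pos _)
    have h4 := Real.add_one_le_exp (t ^ 2 / 8 - 1)
    nlinarith
  obtain ⟨σ, hσ, z, hzE, hzc, hzF⟩ := key
  have hre : |z.re - t / 2| ≤ t / 4 := by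
    have h1 := (Complex.abs_re_le_norm (z - (t / 2 + σ * Complex.I))).trans hzc
    simpa using h1
  have him : |z.im - σ| ≤ t / 4 := by
    have h1 := (Complex.abs_im_le_norm (z - (t / 2 + σ * Complex.I))).trans hzc
    simpa using h1
  have hre' := abs_le.mp hre
  have him1 : 3 * t / 4 ≤ |z.im| := by
    have h1 : |σ| ≤ |z.im| + |z.im - σ| := by
      have h2 : σ = z.im - (z.im - σ) := by ring
      calc |σ| = |z.im - (z.im - σ)| := by rw [← h2]
        _ ≤ |z.im| + |z.im - σ| := abs_sub _ _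
    linarith
  have him2 : |z.im| ≤ 5 * t / 4 := by
    have h1 : |z.im| ≤ |σ| + |z.im - σ| := by
      have h2 : z.im = σ + (z.im - σ) := by ring
      calc |z.im| = |σ + (z.im - σ)| := by rw [← h2]
        _ ≤ |σ| + |z.im - σ| := abs_add_le _ _
    linarith
  have hznorm : ‖z‖ ≤ 2 * t := by
    have h1 := Complex.norm_le_abs_re_add_abs_im z
    have h2 : |z.re| ≤ 3 * t / 4 := abs_le.mpr ⟨by linarith [hre'.1], by linarith [hre'.2]⟩
    linarith
  have hzlow : 3 * t / 4 ≤ ‖z‖ := him1.trans (Complex.abs_im_le_norm z)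
  have hzpos : 0 < ‖z‖ := by linarith
  set θ := Complex.arg z with hθ
  have hpolar : (‖z‖ : ℂ) * Complex.exp (θ * Complex.I) = z := Complex.norm_mul_exp_arg_mul_I z
  have hsq : (z ^ 2).re ≤ 0 := by
    have h1 : (z ^ 2).re = z.re ^ 2 - z.im ^ 2 := by
      rw [sq, Complex.mul_re]; ring
    rw [h1]
    have h2 : |z.re| ≤ |z.im| := by
      have : |z.re| ≤ 3 * t / 4 := abs_le.mpr ⟨by linarith [hre'.1], by linarith [hre'.2]⟩
      linarith
    have := sq_le_sq.mpr h2
    linarith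
  have hgood : ((Complex.exp (θ * Complex.I)) ^ 2).re ≤ 0 := by
    rw [← hpolar, mul_pow, ← Complex.ofReal_pow, Complex.re_ofReal_mul] at hsq
    have : 0 < ‖z‖ ^ 2 := by positivity
    by_contra hcon
    push Not at hcon
    have := mul_pos this hcon
    linarith
  have hup := upper θ hgood
  obtain ⟨hne, hlt⟩ := hR1 ‖z‖ (by linarith [ht.1, le_abs_self R1, abs_nonneg R1]) θ
    (by rw [hpolar]; exact hzE)
  rw [hpolar, rpow_neg_two _ hzpos] at hlt
  have hlogF : t ^ 2 / 8 ≤ Real.log ‖F z‖ := by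
    rw [Real.le_log_iff_exp_le (lt_of_lt_of_le (Real.exp_pos _) hzF)]
    exact hzF
  have hfin : 1 / 32 ≤ (‖z‖ ^ 2)⁻¹ * Real.log ‖F z‖ := by
    rw [inv_mul_eq_div, le_div_iff₀ (by positivity)]
    nlinarith
  have h3 := abs_lt.mp hlt
  linarith [h3.2]

/-! ### the right-hand side -/

/-- the right-hand side `exp (z ^ 2)` -/
noncomputable def gauss (z : ℂ) : ℂ := Complex.exp (z ^ 2)

lemma norm_gauss_polar (r θ : ℝ) :
    ‖gauss (r * Complex.exp (θ * Complex.I))‖ = Real.exp (r ^ 2 * Real.cos (2 * θ)) := by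
  unfold gauss
  rw [Complex.norm_exp, mul_pow, ← Complex.ofReal_pow, Complex.re_ofReal_mul, ← Complex.exp_nat_mul]
  congr 2
  have : ((2 : ℕ) : ℂ) * (θ * Complex.I) = ((2 * θ : ℝ) : ℂ) * Complex.I := by push_cast; ring
  rw [this, Complex.exp_ofReal_mul_I_re]

lemma maxMod_gauss (r : ℝ) (hr : 0 < r) : maxMod gauss r = Real.exp (r ^ 2) := by
  unfold maxMod
  apply le_antisymm
  · apply csSup_le
    · exact ⟨_, (r : ℂ), by simp [abs_of_pos hr], rfl⟩
    · rintro _ ⟨z, hz, rfl⟩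
      have hzr : ‖z‖ = r := by simpa using hz
      simp only
      rw [← Complex.norm_mul_exp_arg_mul_I z, norm_gauss_polar, hzr]
      apply Real.exp_le_exp.mpr
      have := Real.cos_le_one (2 * Complex.arg z)
      nlinarith [sq_nonneg r]
  · have h1 := le_maxMod (F := gauss) (by unfold gauss; fun_prop) (r : ℂ)
    unfold maxMod at h1
    have h2 : ‖(r : ℂ)‖ = r := by rw [Complex.norm_real, Real.norm_eq_abs, abs_of_pos hr]
    rw [h2] at h1
    refine le_trans ?_ h1
    unfold gauss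
    rw [Complex.norm_exp]
    apply le_of_eq
    congr 1
    rw [← Complex.ofReal_pow, Complex.ofReal_re]

lemma order_gauss : order gauss = ((2 : ℝ) : EReal) := by
  unfold order
  have h : (fun r : ℝ => ((Real.log (Real.log (maxMod gauss r)) / Real.log r : ℝ) : EReal)) =ᶠ[atTop]
      fun _ => ((2 : ℝ) : EReal) := by
    filter_upwards [eventually_gt_atTop 1] with r hr
    have hlog : 0 < Real.log r := Real.log_pos hr
    rw [maxMod_gauss r (by linarith), Real.log_exp, Real.log_pow]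
    congr 1
    field_simp
    norm_num
  rw [limsup_congr h, limsup_const]

lemma typ_gauss : typ gauss (fun _ => 2) = ((1 : ℝ) : EReal) := by
  unfold typ
  have h : (fun r : ℝ => ((r ^ (-(2:ℝ)) * Real.log (maxMod gauss r) : ℝ) : EReal)) =ᶠ[atTop]
      fun _ => ((1 : ℝ) : EReal) := by
    filter_upwards [eventually_gt_atTop 0] with r hr
    rw [maxMod_gauss r hr, Real.log_exp, rpow_neg_two r hr]
    congr 1
    field_simp
  rw [limsup_congr h, limsup_const]

lemma indicator_gauss (θ : ℝ) :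
    indicator gauss (fun _ => 2) θ = ((Real.cos (2 * θ) : ℝ) : EReal) := by
  unfold indicator
  have h : (fun r : ℝ => ((r ^ (-(2:ℝ)) : ℝ) : EReal) *
      ENNReal.log (ENNReal.ofReal ‖gauss (r * Complex.exp (θ * Complex.I))‖)) =ᶠ[atTop]
      fun _ => ((Real.cos (2 * θ) : ℝ) : EReal) := by
    filter_upwards [eventually_gt_atTop 0] with r hr
    rw [norm_gauss_polar, ENNReal.log_ofReal_of_pos (Real.exp_pos _), Real.log_exp,
      rpow_neg_two r hr, ← EReal.coe_mul]
    congr 1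
    field_simp
  rw [limsup_congr h, limsup_const]

lemma isC0Set_empty : IsC0Set ∅ := by
  refine ⟨fun _ => 0, fun _ => 0, fun _ => le_rfl, Set.empty_subset _, ?_⟩
  simp

lemma crg_gauss : IsCRG gauss (fun _ => 2) := by
  refine ⟨?_, fun θ => Real.cos (2 * θ), indicator_gauss, ∅, isC0Set_empty, ?_⟩
  · rw [typ_gauss]
    exact EReal.coe_lt_top 1
  · intro ε hε
    refine ⟨0, fun r hr θ _ => ⟨Complex.exp_ne_zero _, ?_⟩⟩
    rw [norm_gauss_polar, Real.log_exp, rpow_neg_two r hr]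
    have : (r ^ 2)⁻¹ * (r ^ 2 * Real.cos (2 * θ)) = Real.cos (2 * θ) := by
      field_simp
    rw [this]
    simpa using hε

/-! ### the symbol -/

/-- the symbol `∑ a_n t^n` -/
noncomputable def symb (l : ℕ → ℝ) (t : ℂ) : ℂ := ∑' n, a l n * t ^ n

lemma symb_bound {l : ℕ → ℝ} (hl : Lam l) (n : ℕ) (t : ℂ) :
    ‖a l n * t ^ n‖ ≤ ‖t‖ ^ n / n.factorial := by
  rw [norm_mul, norm_a hl, norm_pow, one_div, inv_mul_eq_div]
  have h1 := fac_le_P hl n
  have h2 : (0:ℝ) < n.factorial := by exact_mod_cast Nat.factorial_pos n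
  gcongr

lemma symb_hasSum {l : ℕ → ℝ} (hl : Lam l) (t : ℂ) : HasSum (fun n => a l n * t ^ n) (symb l t) :=
  (Summable.of_norm_bounded (Real.summable_pow_div_factorial ‖t‖)
    (fun n => symb_bound hl n t)).hasSum

lemma symb_exp {l : ℕ → ℝ} (hl : Lam l) (t : ℂ) : ‖symb l t‖ ≤ Real.exp ‖t‖ := by
  have h : HasSum (fun n : ℕ => ‖t‖ ^ n / n.factorial) (Real.exp ‖t‖) := by
    rw [Real.exp_eq_exp_ℝ]
    exact NormedSpace.expSeries_div_hasSum_exp ‖t‖
  exact tsum_of_norm_bounded h (fun n => symb_bound hl n t)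

lemma symb_diff {l : ℕ → ℝ} (hl : Lam l) : Differentiable ℂ (symb l) := by
  intro t
  have h := Complex.differentiableOn_tsum_of_summable_norm (F := fun n (t : ℂ) => a l n * t ^ n)
    (u := fun n : ℕ => (‖t‖ + 1) ^ n / n.factorial) (U := Metric.ball 0 (‖t‖ + 1))
    (Real.summable_pow_div_factorial (‖t‖ + 1)) (fun n => by fun_prop) Metric.isOpen_ball
    (fun n w hw => by
      refine (symb_bound hl n w).trans ?_
      have : ‖w‖ ≤ ‖t‖ + 1 := by simpa using (Metric.mem_ball.mp hw).le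
      gcongr)
  exact (h t (by simp)).differentiableAt (Metric.isOpen_ball.mem_nhds (by simp))

lemma symb_zero (l : ℕ → ℝ) : symb l 0 = 1 := by
  unfold symb
  rw [tsum_eq_single 0]
  · simp [a, P]
  · intro n hn
    simp [hn]

/-- **Negative answer to Q1.** There are an entire function `f` of order `ρ₀ ≥ 1` which is of
completely regular growth with respect to its proximate order `ρ(r)` (explicitly `f z = exp (z ^ 2)`
and `ρ(r) = 2`) and an entire function `φ t = ∑ c_k t ^ k` of exponential type, not identically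
zero, such that no entire solution `F` of `φ(D) F = f` is of completely regular growth with respect
to `ρ(r)`. -/
theorem main :
    ∃ (f : ℂ → ℂ) (ρ : ℝ → ℝ) (ρ₀ : ℝ) (φ : ℂ → ℂ) (c : ℕ → ℂ),
      (∀ z, f z = Complex.exp (z ^ 2)) ∧ (∀ r, ρ r = 2) ∧
      Differentiable ℂ f ∧ 1 ≤ ρ₀ ∧ order f = (ρ₀ : EReal) ∧ IsProximateOrder ρ ρ₀ ∧
      0 < typ f ρ ∧ typ f ρ < ⊤ ∧ IsCRG f ρ ∧
      Differentiable ℂ φ ∧ (∀ t, HasSum (fun k => c k * t ^ k) (φ t)) ∧
      (∃ C τ : ℝ, ∀ t, ‖φ t‖ ≤ C * Real.exp (τ * ‖t‖)) ∧ (∃ t, φ t ≠ 0) ∧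
      ∀ F : ℂ → ℂ, Differentiable ℂ F →
        (∀ z, HasSum (fun k => c k * iteratedDeriv k F z) (f z)) → ¬ IsCRG F ρ := by
  refine ⟨gauss, fun _ => 2, 2, symb lseq, a lseq, fun _ => rfl, fun _ => rfl, by unfold gauss; fun_prop, by norm_num,
    order_gauss, ?_, ?_, ?_, crg_gauss, symb_diff lseq_lam, symb_hasSum lseq_lam,
    ⟨1, 1, fun t => by simpa using symb_exp lseq_lam t⟩, ⟨0, by rw [symb_zero]; exact one_ne_zero⟩,
    fun F hF heq => no_crg lseq_lam hF heq⟩
  · refine ⟨⟨0, fun r _ => by fun_prop⟩, tendsto_const_nhds, ?_⟩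
    simp
  · rw [typ_gauss]
    exact_mod_cast one_pos
  · rw [typ_gauss]
    exact EReal.coe_lt_top 1

end Pool.Agent.Helper80.E49600
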